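import Pool.Agent.helper62.HF.SpecV
import Pool.Agent.helper79.MS.SCH

/-!
# MP_07c750, project HALF, row SCX (helper91): Schur's test with a restricted kernel
-/

set_option autoImplicit false

open scoped MatrixGroups ContDiff Topology UpperHalfPlane ComplexConjugate ENNReal
open UpperHalfPlane MeasureTheory Filter Set

namespace Pool.Agent.HF

open Pool.Agent.RS Pool.Agent.MS
open Pool.Agent.EN (XG MG mkX mkM fl pr)

/-- Schur's test with a restricted kernel -/
theorem SCX_main (hGLC : GLC_stmt) (hGMG : GMG_stmt) (hGLI : GLI_stmt) (hGRI : GRI_stmt) (hGPE : GPE_stmt) : SCX_stmt := by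
  classical
  intro Γ F e e' v D Z S hΓ hF he hec he' hec' hv hvb hinv hD hZ hS hsupp hint
  obtain ⟨m, hm⟩ := hvb
  have := hGLC.2.1
  have := SCH_fc hGMG
  have := hGMG.2.2.1
  have hf : Continuous (fun z => conj (e z)) := Complex.continuous_conj.comp he
  have hfc : HasCompactSupport (fun z => conj (e z)) := hec.comp_left (map_zero _)
  have hdF : MeasurableSet (dG F) := (hGMG.1 F hF.meas).1
  have hfin : mG (dG F) < ⊤ := by
    rw [(hGMG.1 F hF.meas).2]
    exact (QU.A_DOB Γ F hΓ hF).2.2.2.1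
  set G : SL(2, ℝ) → ℂ := fun k => ∫ z : ℍ, e' z * conj (e (k⁻¹ • z)) with hG
  have hGm : Measurable G := by
    have a : StronglyMeasurable (Function.uncurry fun (z : ℍ) (k : SL(2, ℝ)) => e' z * conj (e (k⁻¹ • z))) :=
      (SCH_c2 _ e' hf he').stronglyMeasurable
    exact a.integral_prod_left.measurable
  set b : SL(2, ℝ) → ℝ≥0∞ := fun k => ENNReal.ofReal ‖G k‖ with hb
  set a : SL(2, ℝ) → ℝ≥0∞ := fun g => ENNReal.ofReal ‖v g‖ with ha
  set I : SL(2, ℝ) → ℝ≥0∞ := Z.indicator 1 with hI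
  have hIm : Measurable I := measurable_one.indicator hZ
  have hbm : Measurable b := hGm.norm.ennreal_ofReal
  have ham : Measurable a := hv.norm.ennreal_ofReal
  have hainv : ∀ (γ : Γ) g, a ((γ : SL(2, ℝ)) * g) = a g := fun γ g => by
    change ENNReal.ofReal ‖v ((γ : SL(2, ℝ)) * g)‖ = _
    rw [hinv]
  have hmulm : Measurable (fun p : SL(2, ℝ) × SL(2, ℝ) => p.1 * p.2) := (continuous_fst.mul continuous_snd).measurable
  have hI2 : ∀ k, I k ^ 2 = I k := by
    intro k
    by_cases hk : k ∈ Z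
    · rw [hI, Set.indicator_of_mem hk]
      simp
    · rw [hI, Set.indicator_of_notMem hk]
      simp
  have hIb : ∫⁻ k, I k * b k ∂mG = ∫⁻ k in Z, b k ∂mG := by
    rw [← lintegral_indicator hZ]
    refine lintegral_congr fun k => ?_
    by_cases hk : k ∈ Z
    · rw [hI, Set.indicator_of_mem hk, Set.indicator_of_mem hk]
      simp
    · rw [hI, Set.indicator_of_notMem hk, Set.indicator_of_notMem hk]
      simp
  -- pointwise
  have hpt : ∀ h : SL(2, ℝ), h ∈ D → ENNReal.ofReal (‖Wf e' (sy Γ F (fun z => conj (e z)) v) h‖ ^ 2) ≤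
      ENNReal.ofReal S * ∫⁻ k, a (h * k) ^ 2 * (I k * b k) ∂mG := by
    intro h hh
    have hmul : Measurable (fun k : SL(2, ℝ) => h * k) := (continuous_const_mul h).measurable
    rw [SCH_W hGLC hGMG hGLI hGPE Γ F hΓ hF _ e' hf hfc he' hec' v hv m hm hinv h, ENNReal.ofReal_pow (norm_nonneg _)]
    have c1 : ENNReal.ofReal ‖∫ k, v (h * k) * (∫ z : ℍ, e' z * conj (e (k⁻¹ • z))) ∂mG‖ ≤ ∫⁻ k, (a (h * k) * I k) * b k ∂mG := by
      rw [ofReal_norm]
      refine (enorm_integral_le_lintegral_enorm _).trans (lintegral_mono fun k => ?_)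
      change ‖v (h * k) * G k‖ₑ ≤ ENNReal.ofReal ‖v (h * k)‖ * I k * ENNReal.ofReal ‖G k‖
      by_cases h0 : v (h * k) = 0
      · rw [h0, zero_mul, enorm_zero]
        exact bot_le
      by_cases h1 : G k = 0
      · rw [h1, mul_zero, enorm_zero]
        exact bot_le
      have hk : k ∈ Z := hsupp h k hh h0 h1
      rw [hI, Set.indicator_of_mem hk, enorm_mul, ofReal_norm, ofReal_norm, Pi.one_apply, mul_one]
    have c2 := SCH_cs mG (a := fun k => a (h * k) * I k) (b := b) hZ ((ham.comp hmul).mul hIm) hbm (by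
      intro k hk
      by_contra hkZ
      refine hk ?_
      change a (h * k) * I k = 0
      rw [hI, Set.indicator_of_notMem hkZ, mul_zero])
    calc ENNReal.ofReal ‖∫ k, v (h * k) * (∫ z : ℍ, e' z * conj (e (k⁻¹ • z))) ∂mG‖ ^ 2
        ≤ (∫⁻ k, (a (h * k) * I k) * b k ∂mG) ^ 2 := by gcongr
      _ ≤ (∫⁻ k in Z, b k ∂mG) * ∫⁻ k, (a (h * k) * I k) ^ 2 * b k ∂mG := c2
      _ ≤ ENNReal.ofReal S * ∫⁻ k, a (h * k) ^ 2 * (I k * b k) ∂mG := by
        refine mul_le_mul' hint (le_of_eq (lintegral_congr fun k => ?_))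
        change (a (h * k) * I k) ^ 2 * b k = a (h * k) ^ 2 * (I k * b k)
        rw [mul_pow, hI2 k, mul_assoc]
  -- integrate
  have hIbm : Measurable (fun k => I k * b k) := hIm.mul hbm
  have hQ : ∫⁻ h in dG F ∩ D, (∫⁻ k, a (h * k) ^ 2 * (I k * b k) ∂mG) ∂mG ≤ ENNReal.ofReal S * ∫⁻ g in dG F, a g ^ 2 ∂mG := by
    refine (lintegral_mono_set Set.inter_subset_left).trans ?_
    have q1 : AEMeasurable (Function.uncurry fun (h k : SL(2, ℝ)) => a (h * k) ^ 2 * (I k * b k)) ((mG.restrict (dG F)).prod mG) :=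
      (((ham.comp hmulm).pow_const 2).mul (hIbm.comp measurable_snd)).aemeasurable
    rw [lintegral_lintegral_swap q1]
    have q2 : ∀ k : SL(2, ℝ), ∫⁻ h in dG F, a (h * k) ^ 2 * (I k * b k) ∂mG =
        (∫⁻ g in dG F, a g ^ 2 ∂mG) * (I k * b k) := by
      intro k
      have r1 := SCH_right hGLC hGMG hGLI hGRI Γ F hΓ hF (fun g => a g ^ 2 * (I k * b k)) k (by
        intro γ g
        simp only [hainv])
      have r2 : ∫⁻ h in dG F, a (h * k) ^ 2 * (I k * b k) ∂mG = ∫⁻ g in dG F, a g ^ 2 * (I k * b k) ∂mG := r1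
      rw [r2, lintegral_mul_const _ (ham.pow_const 2)]
    simp only [q2]
    rw [lintegral_const_mul _ hIbm, hIb, mul_comm]
    exact mul_le_mul' hint le_rfl
  -- back to real integrals
  have hR0 : 0 ≤ iR F (fun g => ‖v g‖ ^ 2) := integral_nonneg fun g => by positivity
  by_cases hIn : Integrable (fun h => ‖Wf e' (sy Γ F (fun z => conj (e z)) v) h‖ ^ 2) (mG.restrict (dG F ∩ D))
  · have hvi : Integrable (fun g => ‖v g‖ ^ 2) (mG.restrict (dG F)) := by
      have : IsFiniteMeasure (mG.restrict (dG F)) := ⟨by rw [Measure.restrict_apply_univ]; exact hfin⟩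
      refine Integrable.of_bound (hv.norm.pow_const 2).aestronglyMeasurable (m ^ 2) (Filter.Eventually.of_forall fun g => ?_)
      rw [Real.norm_eq_abs, abs_of_nonneg (by positivity)]
      exact pow_le_pow_left₀ (norm_nonneg _) (hm g) 2
    have e1 := ofReal_integral_eq_lintegral_ofReal hIn (Filter.Eventually.of_forall fun h => by positivity)
    have e2 := ofReal_integral_eq_lintegral_ofReal hvi (Filter.Eventually.of_forall fun h => by positivity)
    have e3 : ENNReal.ofReal (∫ h in dG F ∩ D, ‖Wf e' (sy Γ F (fun z => conj (e z)) v) h‖ ^ 2 ∂mG) ≤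
        ENNReal.ofReal (S ^ 2 * iR F (fun g => ‖v g‖ ^ 2)) := by
      rw [e1, sq, mul_assoc, ENNReal.ofReal_mul hS, ENNReal.ofReal_mul hS]
      have e4 : ENNReal.ofReal (iR F (fun g => ‖v g‖ ^ 2)) = ∫⁻ g in dG F, a g ^ 2 ∂mG := by
        unfold iR
        rw [e2]
        refine lintegral_congr fun g => ?_
        rw [ENNReal.ofReal_pow (norm_nonneg _)]
      rw [e4]
      calc ∫⁻ h in dG F ∩ D, ENNReal.ofReal (‖Wf e' (sy Γ F (fun z => conj (e z)) v) h‖ ^ 2) ∂mG
          ≤ ∫⁻ h in dG F ∩ D, ENNReal.ofReal S * (∫⁻ k, a (h * k) ^ 2 * (I k * b k) ∂mG) ∂mG :=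
            setLIntegral_mono' (hdF.inter hD) fun h hh => hpt h hh.2
        _ = ENNReal.ofReal S * ∫⁻ h in dG F ∩ D, (∫⁻ k, a (h * k) ^ 2 * (I k * b k) ∂mG) ∂mG := by
          refine lintegral_const_mul _ ?_
          exact Measurable.lintegral_prod_right (((ham.comp hmulm).pow_const 2).mul (hIbm.comp measurable_snd))
        _ ≤ ENNReal.ofReal S * (ENNReal.ofReal S * ∫⁻ g in dG F, a g ^ 2 ∂mG) := by gcongr
    exact (ENNReal.ofReal_le_ofReal_iff (mul_nonneg (sq_nonneg S) hR0)).1 e3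
  · rw [integral_undef hIn]
    exact mul_nonneg (sq_nonneg S) hR0

theorem SCX_proof : SCX_stmt := SCX_main A_GLC A_GMG A_GLI A_GRI A_GPE

end Pool.Agent.HF
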